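import Mathlib
import Pool.Agent.Lib.MP_5a6238_co.HostF

namespace Pool.Agent.Retired.MP_5a6238_co.LinearHost

open Pool.Agent.Lib.MP_5a6238_co.Host

theorem result {r d p : ℕ} (hd : 0 < d) {J σ K V : Type} [Fintype J] [Fintype σ] [Field K]
    [Algebra (ZMod p) K] [Fintype V] (S T : J → Finset (Fin r)) (hS : ∀ j, (S j).Nonempty)
    (hT : ∀ j, (T j).Nonempty) (hST : ∀ j, Disjoint (S j) (T j))
    (P : J → Matrix (Fin d) (Fin d) (MvPolynomial σ ℤ)) (t : ℕ → σ → K)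
    (ht : AlgebraicIndependent (ZMod p) fun a : ℕ × σ => t a.1 a.2)
    (hP : ∃ j, ((P j).map (MvPolynomial.aeval (t 0)) - (P j).map (MvPolynomial.aeval (t 1))).det ≠ 0)
    (F : Finset (Finset V))
    (hF : ¬Contains (host S T fun i j => (P j).map (MvPolynomial.aeval (t i))) F) :
    ∃ ε : ℝ, 0 < ε ∧ ∃ n₀ : ℕ, ∀ n ≥ n₀, (n : ℝ) ^ ((r : ℝ) - 1 + ε) ≤ ex r n F :=
  main S T hd hS hT hST P t ht hP hF

/-- An instance of `result` (all splittings of the classes, free 2 by 2 matrices): without a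
potential in the free group the Turan number is not of order `n ^ (r - 1)`. -/
theorem free_potential {r : ℕ} (hr : 2 ≤ r) {V : Type} [Fintype V] [DecidableEq V]
    (F : Finset (Finset V))
    (hF : ¬∃ (col : V → Fin r) (l : Finset V → ℕ) (φ ψ : Finset V → FreeGroup ℕ),
      (∀ e ∈ F, Set.BijOn col e Set.univ) ∧ (∀ e ∈ F, ∀ e' ∈ F, (e \ e').card = 1 → l e ≠ l e') ∧
      ∀ e ∈ F, ∀ A ⊂ e, A.Nonempty → φ A = FreeGroup.of (l e) * ψ (e \ A)) :
    ∃ ε : ℝ, 0 < ε ∧ ∃ n₀ : ℕ, ∀ n ≥ n₀, (n : ℝ) ^ ((r : ℝ) - 1 + ε) ≤ ex r n F :=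
  potential hr F hF

/-- An instance of `free_potential`: a cycle of length `2 (j + k)` with one hub on `2 j`
consecutive edges and a second hub on the other `2 k` edges, for `j ≠ k`. -/
theorem split_wheel {j k : ℕ} (hj : 0 < j) (hk : 0 < k) (h : j ≠ k) :
    ∃ ε : ℝ, 0 < ε ∧ ∃ n₀ : ℕ, ∀ n ≥ n₀, (n : ℝ) ^ (2 + ε) ≤ ex 3 n
      ((Finset.range (2 * (j + k))).image fun i : ℕ =>
        ({.inl (decide (i < 2 * j)), .inr i, .inr (i + 1)} : Finset (Bool ⊕ ZMod (2 * (j + k))))) :=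
  splitWheel_bound hj hk h

end Pool.Agent.Retired.MP_5a6238_co.LinearHost
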