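import Mathlib
import Pool.Agent.Lib.MP_5a6238_co.Brown

namespace Pool.Agent.Retired.MP_5a6238_co.ShadowK133

open Finset

/-- The hypergraph `H` contains `F` as a (not necessarily induced) subhypergraph. -/
def Contains {V W : Type} (H : Finset (Finset W)) (F : Finset (Finset V)) : Prop :=
  ∃ f : V ↪ W, ∀ e ∈ F, e.map f ∈ H

open Classical in
/-- The Turan number: the largest number of edges of an `F`-free `r`-graph on `n` vertices. -/
noncomputable def ex (r n : ℕ) {V : Type} (F : Finset (Finset V)) : ℕ :=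
  ({H ∈ (powersetCard r (univ : Finset (Fin n))).powerset | ¬Contains H F} : Finset _).sup card

/-- The 2-shadow: two distinct vertices are adjacent when some edge contains both. -/
def shadow {V : Type} (F : Finset (Finset V)) : SimpleGraph V :=
  SimpleGraph.fromRel fun u v => ∃ e ∈ F, u ∈ e ∧ v ∈ e

/-- The complete tripartite graph `K_{1,3,3}`. -/
def K133 : SimpleGraph (Σ i : Fin 3, Fin (![1, 3, 3] i)) :=
  SimpleGraph.completeMultipartiteGraph fun i : Fin 3 => Fin (![1, 3, 3] i)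

theorem result : ∃ c : ℝ, 0 < c ∧ ∃ n₀ : ℕ, ∀ n ≥ n₀, ∀ (V : Type) (F : Finset (Finset V)),
    K133.IsContained (shadow F) → c * (n : ℝ) ^ (9 / 4 : ℝ) ≤ ex 3 n F := by
  classical
  refine ⟨1 / (2 * 4 ^ 9), by positivity, 768, fun n hn V F ⟨g⟩ => ?_⟩
  obtain ⟨H, h1, h2, h3⟩ := Pool.Agent.Lib.MP_5a6238_co.Brown.exists_hypergraph hn
  refine le_trans h2 (Nat.cast_le.2 (le_sup (f := card) ?_))
  refine mem_filter.2 ⟨mem_powerset.2 fun e he => mem_powersetCard.2 ⟨subset_univ _, h1 e he⟩, ?_⟩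
  rintro ⟨f, hf⟩
  have key : ∀ a b, K133.Adj a b → f (g a) ≠ f (g b) ∧ ∃ e ∈ H, f (g a) ∈ e ∧ f (g b) ∈ e := by
    intro a b hab
    have := (SimpleGraph.fromRel_adj _ _ _).1 (g.toHom.map_adj hab)
    refine ⟨fun h => this.1 (f.injective h), ?_⟩
    rcases this.2 with ⟨e, he, hu, hv⟩ | ⟨e, he, hv, hu⟩ <;>
      exact ⟨_, hf e he, mem_map_of_mem _ hu, mem_map_of_mem _ hv⟩
  refine h3 (f (g ⟨0, (0 : Fin 1)⟩)) (fun i => f (g ⟨1, i⟩)) (fun j => f (g ⟨2, j⟩))
    (fun i j h => ?_) (fun i j h => ?_) (fun i => key _ _ ?_) (fun i => key _ _ ?_)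
    (fun i j => key _ _ ?_)
  · exact eq_of_heq (Sigma.mk.inj (g.injective (f.injective h))).2
  · exact eq_of_heq (Sigma.mk.inj (g.injective (f.injective h))).2
  all_goals simp [K133]

end Pool.Agent.Retired.MP_5a6238_co.ShadowK133
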