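import Mathlib
import Pool.Agent.Lib.MP_5a6238_co.WheelB

namespace Pool.Agent.Retired.MP_5a6238_co.ShadowW4

open Finset

/-- The hypergraph `H` contains `F` as a (not necessarily induced) subhypergraph. -/
def Contains {V W : Type} (H : Finset (Finset W)) (F : Finset (Finset V)) : Prop :=
  ∃ f : V ↪ W, ∀ e ∈ F, e.map f ∈ H

open Classical in
/-- The Turan number: the largest number of edges of an `F`-free `r`-graph on `n` vertices. -/
noncomputable def ex (r n : ℕ) {V : Type} (F : Finset (Finset V)) : ℕ :=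
  ({H ∈ (powersetCard r (univ : Finset (Fin n))).powerset | ¬Contains H F} : Finset _).sup card

/-- The 2-shadow: two distinct vertices are adjacent when some edge contains both. -/
def shadow {V : Type} (F : Finset (Finset V)) : SimpleGraph V :=
  SimpleGraph.fromRel fun u v => ∃ e ∈ F, u ∈ e ∧ v ∈ e

/-- The wheel with four spokes, that is the complete tripartite graph `K_{1,2,2}`. -/
def K122 : SimpleGraph (Σ i : Fin 3, Fin (![1, 2, 2] i)) :=
  SimpleGraph.completeMultipartiteGraph fun i : Fin 3 => Fin (![1, 2, 2] i)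

theorem result : ∃ δ : ℝ, 0 < δ ∧ ∃ n₀ : ℕ, ∀ n ≥ n₀, ∀ (V : Type) (F : Finset (Finset V)),
    K122.IsContained (shadow F) → (n : ℝ) ^ (2 + δ) ≤ ex 3 n F := by
  classical
  obtain ⟨δ, hδ, n₀, h⟩ := Pool.Agent.Lib.MP_5a6238_co.Wheel.exists_noWheel
  refine ⟨δ, hδ, n₀, fun n hn V F ⟨g⟩ => ?_⟩
  obtain ⟨H, h1, h3, h2⟩ := h n hn
  refine le_trans h2 (Nat.cast_le.2 (le_sup (f := card) ?_))
  refine mem_filter.2 ⟨mem_powerset.2 fun e he => mem_powersetCard.2 ⟨subset_univ _, h1 e he⟩, ?_⟩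
  rintro ⟨f, hf⟩
  have key : ∀ a b, K122.Adj a b → Pool.Agent.Lib.MP_5a6238_co.Wheel.Sh H (f (g a)) (f (g b)) := by
    intro a b hab
    have := (SimpleGraph.fromRel_adj _ _ _).1 (g.toHom.map_adj hab)
    refine ⟨fun h => this.1 (f.injective h), ?_⟩
    rcases this.2 with ⟨e, he, hu, hv⟩ | ⟨e, he, hv, hu⟩ <;>
      exact ⟨_, hf e he, mem_map_of_mem _ hu, mem_map_of_mem _ hv⟩
  rcases h3 (f (g ⟨0, (0 : Fin 1)⟩)) (f (g ⟨1, (0 : Fin 2)⟩)) (f (g ⟨1, (1 : Fin 2)⟩))
    (f (g ⟨2, (0 : Fin 2)⟩)) (f (g ⟨2, (1 : Fin 2)⟩)) (key _ _ (by simp [K122]))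
    (key _ _ (by simp [K122])) (key _ _ (by simp [K122])) (key _ _ (by simp [K122]))
    (key _ _ (by simp [K122])) (key _ _ (by simp [K122])) (key _ _ (by simp [K122]))
    (key _ _ (by simp [K122])) with h | h
  · exact absurd (eq_of_heq (Sigma.mk.inj (g.injective (f.injective h))).2) (by decide)
  · exact absurd (eq_of_heq (Sigma.mk.inj (g.injective (f.injective h))).2) (by decide)

end Pool.Agent.Retired.MP_5a6238_co.ShadowW4
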